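import Mathlib

/-!
# Counting points by splitting

Elementary counts for finite sets of vectors: if every subset of rank at least two is a union of two
subsets of smaller rank, then a set of rank `r` has at most `2 ^ (r - 1)` elements; and the same
bound from good points.
-/

namespace Pool.Agent.Helper28.PsdSplit

open Finset Module Submodule

variable {k V : Type*} [Field k] [AddCommGroup V] [Module k V]

/-- Nonzero and pairwise non parallel. -/
def Nonpar (k : Type*) {V : Type*} [Field k] [AddCommGroup V] [Module k V] (X : Finset V) : Prop :=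
  (∀ x ∈ X, x ≠ 0) ∧ ∀ x ∈ X, ∀ y ∈ X, y ∈ span k {x} → y = x

theorem Nonpar.mono {X Y : Finset V} (h : Nonpar k X) (hY : Y ⊆ X) : Nonpar k Y :=
  ⟨fun x hx => h.1 x (hY hx), fun x hx y hy => h.2 x (hY hx) y (hY hy)⟩

theorem finite_span (X : Finset V) : FiniteDimensional k (span k (X : Set V)) :=
  FiniteDimensional.span_of_finite k X.finite_toSet

/-- A nonparallel set in a subspace of dimension at most one has at most one element. -/
theorem card_le_one_of {X : Finset V} (h : Nonpar k X) {W : Submodule k V}
    [FiniteDimensional k W] (hX : ∀ x ∈ X, x ∈ W) (hW : finrank k W ≤ 1) : X.card ≤ 1 := by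
  rw [Finset.card_le_one]
  intro a ha b hb
  have ha0 : a ≠ 0 := h.1 a ha
  have hs : span k {a} = W := by
    apply Submodule.eq_of_le_of_finrank_le
    · rw [Submodule.span_le]
      rintro x rfl
      exact hX _ ha
    · rw [finrank_span_singleton ha0]
      exact hW
  have hb' : b ∈ span k {a} := by
    rw [hs]
    exact hX b hb
  exact (h.2 a ha b hb hb').symm

theorem eq_empty_of {X : Finset V} (h : Nonpar k X) {W : Submodule k V}
    [FiniteDimensional k W] (hX : ∀ x ∈ X, x ∈ W) (hW : finrank k W = 0) : X = ∅ := by
  rw [Finset.eq_empty_iff_forall_notMem]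
  intro x hx
  have h1 : W = ⊥ := by
    rwa [Submodule.finrank_eq_zero] at hW
  have h2 := hX x hx
  rw [h1, Submodule.mem_bot] at h2
  exact h.1 x hx h2

/-- **The splitting count.** If every subset `Y` of `X` of rank at least two is a union of two
subsets of smaller rank, then `X` has at most `2 ^ (r - 1)` elements, `r` the rank of `X`. -/
theorem card_le_of_split [DecidableEq V] {X : Finset V} (hX : Nonpar k X)
    (hs : ∀ Y ⊆ X, 2 ≤ finrank k (span k (Y : Set V)) → ∃ A B : Finset V, Y = A ∪ B ∧
      finrank k (span k (A : Set V)) < finrank k (span k (Y : Set V)) ∧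
      finrank k (span k (B : Set V)) < finrank k (span k (Y : Set V))) :
    X.card ≤ 2 ^ (finrank k (span k (X : Set V)) - 1) := by
  have key : ∀ r : ℕ, ∀ Y ⊆ X, finrank k (span k (Y : Set V)) ≤ r + 1 → Y.card ≤ 2 ^ r := by
    intro r
    induction r with
    | zero =>
      intro Y hY hr
      have := finite_span (k := k) Y
      exact card_le_one_of (hX.mono hY) (fun x hx => subset_span hx) hr
    | succ r ih =>
      intro Y hY hr
      by_cases h2 : 2 ≤ finrank k (span k (Y : Set V))
      · obtain ⟨A, B, rfl, hA, hB⟩ := hs Y hY h2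
        have h3 := ih A (Finset.union_subset_left hY) (by omega)
        have h4 := ih B (Finset.union_subset_right hY) (by omega)
        calc (A ∪ B).card ≤ A.card + B.card := Finset.card_union_le A B
          _ ≤ 2 ^ r + 2 ^ r := Nat.add_le_add h3 h4
          _ = 2 ^ (r + 1) := by rw [pow_succ]; ring
      · have := finite_span (k := k) Y
        have h3 : Y.card ≤ 1 :=
          card_le_one_of (hX.mono hY) (fun x hx => subset_span hx) (by omega)
        exact h3.trans Nat.one_le_two_pow
  have := finite_span (k := k) X
  by_cases h0 : finrank k (span k (X : Set V)) = 0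
  · have h1 := eq_empty_of hX (fun x hx => subset_span hx) h0
    rw [h1]
    simp
  · exact key _ X subset_rfl (by omega)

/-- The span of the elements of `X` off the form `φ`. -/
def off (X : Finset V) (φ : Dual k V) : Submodule k V := span k {x | x ∈ X ∧ φ x ≠ 0}

theorem off_mono {X Y : Finset V} (h : Y ⊆ X) (φ : Dual k V) : off Y φ ≤ off X φ := by
  apply span_mono
  rintro x ⟨hx, hx'⟩
  exact ⟨h hx, hx'⟩

/-- `v` is good in the subspace `W` for `X`: the forms through `v` whose off-span misses `v` have
only multiples of `v` as common zeros in `W`. -/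
def Good {ι : Type*} (m : ι → Dual k V) (X : Finset V) (W : Submodule k V) (v : V) : Prop :=
  ∀ z ∈ W, (∀ j, m j v = 0 → v ∉ off X (m j) → m j z = 0) → z ∈ span k {v}

theorem Good.mono {ι : Type*} {m : ι → Dual k V} {X Y : Finset V} {W W' : Submodule k V} {v : V}
    (h : Good m X W v) (hY : Y ⊆ X) (hW : W' ≤ W) : Good m Y W' v := by
  intro z hz hj
  apply h z (hW hz)
  intro j h1 h2
  exact hj j h1 fun h3 => h2 (off_mono hY (m j) h3)

/-- **The count with good points.** -/
theorem card_le_of_good [DecidableEq V] {ι : Type*} (m : ι → Dual k V) (r : ℕ) :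
    ∀ (X : Finset V) (W : Submodule k V), FiniteDimensional k W → Nonpar k X → (∀ x ∈ X, x ∈ W) →
      (∀ v ∈ X, Good m X W v) → finrank k W ≤ r + 1 → X.card ≤ 2 ^ r := by
  classical
  induction r with
  | zero =>
    intro X W _ hn hX hg hW
    exact card_le_one_of hn hX hW
  | succ r ih =>
    intro X W hWf hn hX hg hW
    rcases X.eq_empty_or_nonempty with rfl | ⟨v, hv⟩
    · simp
    by_cases hW1 : finrank k W ≤ 1
    · exact (card_le_one_of hn hX hW1).trans Nat.one_le_two_pow
    -- a vector of `W` off the line of `v`
    have hz : ∃ z ∈ W, z ∉ span k {v} := by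
      by_contra hcon
      push Not at hcon
      have h1 : finrank k W ≤ finrank k (span k {v}) :=
        Submodule.finrank_mono (fun z hz => hcon z hz)
      rw [finrank_span_singleton (hn.1 v hv)] at h1
      exact hW1 h1
    obtain ⟨z, hzW, hzv⟩ := hz
    have hj : ∃ j, m j v = 0 ∧ v ∉ off X (m j) ∧ m j z ≠ 0 := by
      by_contra hcon
      push Not at hcon
      exact hzv (hg v hv z hzW fun j h1 h2 => hcon j h1 h2)
    obtain ⟨j, hjv, hjo, hjz⟩ := hj
    set X₁ := X.filter fun x => m j x = 0 with hX₁
    set X₂ := X.filter fun x => ¬ m j x = 0 with hX₂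
    have hcard : X.card = X₁.card + X₂.card := by
      rw [hX₁, hX₂]
      exact (Finset.card_filter_add_card_filter_not (s := X) fun x => m j x = 0).symm
    have hs1 : X₁ ⊆ X := Finset.filter_subset _ _
    have hs2 : X₂ ⊆ X := Finset.filter_subset _ _
    -- the first part
    have hW1' : finrank k (W ⊓ LinearMap.ker (m j) : Submodule k V) ≤ r + 1 := by
      have h1 : (W ⊓ LinearMap.ker (m j) : Submodule k V) < W := by
        refine lt_of_le_of_ne inf_le_left ?_
        intro h
        have h2 : z ∈ (W ⊓ LinearMap.ker (m j) : Submodule k V) := by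
          rw [h]
          exact hzW
        exact hjz (LinearMap.mem_ker.1 h2.2)
      have h2 := Submodule.finrank_lt_finrank_of_lt h1
      omega
    have hc1 : X₁.card ≤ 2 ^ r := by
      refine ih X₁ (W ⊓ LinearMap.ker (m j)) ?_ (hn.mono hs1) ?_ ?_ hW1'
      · exact Submodule.finiteDimensional_inf_left W (LinearMap.ker (m j))
      · intro x hx
        rw [hX₁, Finset.mem_filter] at hx
        exact ⟨hX x hx.1, LinearMap.mem_ker.2 hx.2⟩
      · intro x hx
        exact (hg x (hs1 hx)).mono hs1 inf_le_left
    -- the second part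
    have hoW : off X (m j) ≤ W := by
      unfold off
      rw [span_le]
      rintro x ⟨hx, -⟩
      exact hX x hx
    have hof : FiniteDimensional k (off X (m j)) :=
      FiniteDimensional.span_of_finite k (X.finite_toSet.subset fun x hx => hx.1)
    have hW2' : finrank k (off X (m j)) ≤ r + 1 := by
      have h1 : off X (m j) < W := by
        refine lt_of_le_of_ne hoW ?_
        intro h
        apply hjo
        rw [h]
        exact hX v hv
      have h2 := Submodule.finrank_lt_finrank_of_lt h1
      omega
    have hc2 : X₂.card ≤ 2 ^ r := by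
      refine ih X₂ (off X (m j)) hof (hn.mono hs2) ?_ ?_ hW2'
      · intro x hx
        rw [hX₂, Finset.mem_filter] at hx
        exact subset_span ⟨hx.1, hx.2⟩
      · intro x hx
        exact (hg x (hs2 hx)).mono hs2 hoW
    calc X.card = X₁.card + X₂.card := hcard
      _ ≤ 2 ^ r + 2 ^ r := Nat.add_le_add hc1 hc2
      _ = 2 ^ (r + 1) := by rw [pow_succ]; ring

end Pool.Agent.Helper28.PsdSplit
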